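import Mathlib

set_option autoImplicit false

namespace Pool.Agent.H27Z.IsoDefs

/-- The edge boundary of `S` in the lattice graph on `ℤ^d`: the unordered pairs of points at
`ℓ¹` distance one with exactly one endpoint in `S`. -/
def edgeBoundary {d : ℕ} (S : Finset (Fin d → ℤ)) : Set (Sym2 (Fin d → ℤ)) :=
  {e | ∃ x y : Fin d → ℤ, e = s(x, y) ∧ ∑ i, |x i - y i| = 1 ∧ x ∈ S ∧ y ∉ S}

/-- The cube `a + {0, 1, ..., k - 1}^d`. -/
noncomputable def cube {d : ℕ} (a : Fin d → ℤ) (k : ℕ) : Finset (Fin d → ℤ) :=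
  Fintype.piFinset fun i => Finset.Ico (a i) (a i + k)

end Pool.Agent.H27Z.IsoDefs
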