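import Mathlib
import Pool.Agent.H27Z.Iso.Defs

set_option autoImplicit false

namespace Pool.Agent.H27Z.Iso

open Finset Pool.Agent.H27Z.IsoDefs

noncomputable def box {d : ℕ} (a : Fin d → ℕ) : Finset (Fin d → ℤ) :=
  Fintype.piFinset fun i => Finset.Ico (0 : ℤ) (a i)

lemma card_box {d : ℕ} (a : Fin d → ℕ) : #(box a) = ∏ i, a i := by
  simp [box]

lemma card_cube {d : ℕ} (a : Fin d → ℤ) (k : ℕ) : #(cube a k) = k ^ d := by
  simp [cube]

lemma unit_step {d : ℕ} {x y : Fin d → ℤ} (h : ∑ i, |x i - y i| = 1) :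
    ∃ i, y = Function.update x i (x i + 1) ∨ y = Function.update x i (x i - 1) := by
  obtain ⟨i, -, hi⟩ := exists_ne_zero_of_sum_ne_zero (h ▸ one_ne_zero : ∑ i, |x i - y i| ≠ 0)
  have h1 := add_sum_erase univ (fun j => |x j - y j|) (mem_univ i)
  have h2 : 0 ≤ ∑ j ∈ univ.erase i, |x j - y j| := sum_nonneg fun j _ => abs_nonneg _
  have h3 : 0 < |x i - y i| := lt_of_le_of_ne (abs_nonneg _) (Ne.symm hi)
  have h4 : |x i - y i| = 1 := by omega
  have h5 : ∑ j ∈ univ.erase i, |x j - y j| = 0 := by omega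
  have h6 : ∀ j, j ≠ i → y j = x j := by
    intro j hj
    have := (sum_eq_zero_iff_of_nonneg fun j _ => abs_nonneg _).1 h5 j (by simp [hj])
    have := abs_eq_zero.1 this
    omega
  refine ⟨i, ?_⟩
  rcases abs_eq (by norm_num : (0 : ℤ) ≤ 1) |>.1 h4 with h7 | h7
  · right
    funext j
    by_cases hj : j = i
    · subst hj; simp; omega
    · simp [hj, h6 j hj]
  · left
    funext j
    by_cases hj : j = i
    · subst hj; simp; omega
    · simp [hj, h6 j hj]

lemma boundary_box {d : ℕ} (a : Fin d → ℕ) (ha : ∀ i, 0 < a i) :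
    (edgeBoundary (box a)).Finite ∧
    ((edgeBoundary (box a)).ncard : ℝ) ≤ ∑ i, 2 * ((∏ j, a j : ℕ) : ℝ) / a i := by
  classical
  let T : Finset (Sym2 (Fin d → ℤ)) := univ.biUnion fun i =>
    ({x ∈ box a | x i = (a i : ℤ) - 1}.image fun x => s(x, Function.update x i (x i + 1))) ∪
    ({x ∈ box a | x i = 0}.image fun x => s(x, Function.update x i (x i - 1)))
  have hsub : edgeBoundary (box a) ⊆ ↑T := by
    rintro e ⟨x, y, rfl, hxy, hx, hy⟩
    obtain ⟨i, hi⟩ := unit_step hxy
    simp only [T, coe_biUnion, coe_univ, Set.mem_univ, Set.iUnion_true, Set.mem_iUnion,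
      mem_coe, mem_union, mem_image, mem_filter]
    refine ⟨i, ?_⟩
    have hx' : ∀ j, 0 ≤ x j ∧ x j < a j := by simpa [box] using hx
    rcases hi with rfl | rfl
    · left
      refine ⟨x, ⟨hx, ?_⟩, rfl⟩
      by_contra hne
      apply hy
      simp only [box, Fintype.mem_piFinset, mem_Ico]
      intro j
      by_cases hj : j = i
      · subst hj
        have := hx' j
        simp only [Function.update_self]
        omega
      · simpa [hj] using hx' j
    · right
      refine ⟨x, ⟨hx, ?_⟩, rfl⟩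
      by_contra hne
      apply hy
      simp only [box, Fintype.mem_piFinset, mem_Ico]
      intro j
      by_cases hj : j = i
      · subst hj
        have := hx' j
        simp only [Function.update_self]
        omega
      · simpa [hj] using hx' j
  have hface : ∀ i (v : ℤ), 0 ≤ v → v < a i →
      (#{x ∈ box a | x i = v} : ℝ) = ((∏ j, a j : ℕ) : ℝ) / a i := by
    intro i v h0 h1
    have h2 : #{x ∈ box a | x i = v} = ∏ j ∈ univ.erase i, a j := by
      have h4 := Fintype.card_filter_piFinset_eq_of_mem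
        (fun j : Fin d => Finset.Ico (0 : ℤ) (a j)) i (a := v) (by simp [h0, h1])
      unfold box
      convert h4 using 2
      simp
    have h3 : (0 : ℝ) < a i := by exact_mod_cast ha i
    rw [h2, eq_div_iff h3.ne', ← prod_erase_mul univ a (mem_univ i)]
    push_cast
    rfl
  refine ⟨T.finite_toSet.subset hsub, ?_⟩
  have h1 : (edgeBoundary (box a)).ncard ≤ #T := by
    rw [← Set.ncard_coe_finset]
    exact Set.ncard_le_ncard hsub T.finite_toSet
  have h2 : #T ≤ ∑ i, (#{x ∈ box a | x i = (a i : ℤ) - 1} + #{x ∈ box a | x i = 0}) := by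
    refine card_biUnion_le.trans (sum_le_sum fun i _ => ?_)
    exact (card_union_le _ _).trans (add_le_add card_image_le card_image_le)
  have h3 : ((edgeBoundary (box a)).ncard : ℝ) ≤
      ∑ i, ((#{x ∈ box a | x i = (a i : ℤ) - 1} : ℝ) + #{x ∈ box a | x i = 0}) := by
    exact_mod_cast h1.trans h2
  refine h3.trans (le_of_eq (sum_congr rfl fun i _ => ?_))
  have := ha i
  rw [hface i _ (by omega) (by omega), hface i 0 le_rfl (by omega)]
  ring

lemma two_mul_pow_le {k : ℕ} (hk : 1 ≤ k) : 2 * k ^ k ≤ (k + 1) ^ k := by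
  have h := one_add_mul_le_pow (a := (1 : ℝ) / k) (by
    have : (0 : ℝ) ≤ 1 / k := by positivity
    linarith) k
  have hk' : (0 : ℝ) < k := by exact_mod_cast hk
  have e1 : (1 : ℝ) + k * (1 / k) = 2 := by field_simp; norm_num
  have e2 : ((1 : ℝ) + 1 / k) ^ k * k ^ k = (k + 1) ^ k := by
    rw [← mul_pow]; congr 1; field_simp
  rw [e1] at h
  have : (2 : ℝ) * k ^ k ≤ (k + 1) ^ k := by
    rw [← e2]; gcongr
  exact_mod_cast this

theorem main (c : ℝ) (hc : 0 < c) :
    ∃ d : ℕ, 1 ≤ d ∧ ∃ ε : ℝ, 0 < ε ∧ ∃ S : Finset (Fin d → ℤ),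
      (edgeBoundary S).Finite ∧
      ((edgeBoundary S).ncard : ℝ) ≤ 2 * d * (#S : ℝ) ^ (((d : ℝ) - 1) / d) * (1 + ε) ∧
      ∀ (a : Fin d → ℤ) (k : ℕ), 1 ≤ k →
        c * √(d * ε) * #S < #(symmDiff S (cube a k)) := by
  obtain ⟨k, hk⟩ := exists_nat_gt (8 * c ^ 2)
  have hk0 : (0 : ℝ) < k := lt_trans (by positivity) hk
  have hk1 : 1 ≤ k := by exact_mod_cast hk0
  let a : Fin (k + k) → ℕ := Fin.addCases (fun _ => k) (fun _ => k + 1)
  have ha : ∀ i, 0 < a i := by
    intro i
    refine Fin.addCases (fun j => ?_) (fun j => ?_) i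
    · simp only [a, Fin.addCases_left]; omega
    · simp only [a, Fin.addCases_right]; omega
  have hprod : ∏ i, a i = k ^ k * (k + 1) ^ k := by
    rw [Fin.prod_univ_add]
    simp only [a, Fin.addCases_left, Fin.addCases_right, prod_const, card_univ, Fintype.card_fin]
  have hS : #(box a) = k ^ k * (k + 1) ^ k := by rw [card_box, hprod]
  have hSpos : (0 : ℝ) < #(box a) := by rw [hS]; positivity
  refine ⟨k + k, by omega, 1 / k ^ 2, by positivity, box a, (boundary_box a ha).1, ?_, ?_⟩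
  · refine (boundary_box a ha).2.trans ?_
    rw [← card_box, Fin.sum_univ_add]
    simp only [a, Fin.addCases_left, Fin.addCases_right, sum_const, card_univ, Fintype.card_fin,
      nsmul_eq_mul]
    obtain ⟨s, hs, hs2⟩ : ∃ s : ℝ, 0 < s ∧ s ^ 2 = k * (k + 1) :=
      ⟨√(k * (k + 1)), Real.sqrt_pos.2 (by positivity), Real.sq_sqrt (by positivity)⟩
    have e1 : (#(box a) : ℝ) = s ^ (k + k) := by
      rw [hS, ← two_mul, pow_mul, hs2, mul_pow]
      push_cast
      ring
    have e2 : (#(box a) : ℝ) ^ ((((k + k : ℕ) : ℝ) - 1) / ((k + k : ℕ) : ℝ)) = #(box a) / s := by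
      have hd : (0 : ℝ) < ((k + k : ℕ) : ℝ) := by push_cast; linarith
      rw [e1, ← Real.rpow_natCast s (k + k), ← Real.rpow_mul hs.le, mul_div_cancel₀ _ hd.ne',
        Real.rpow_sub_one hs.ne']
    change _ ≤ 2 * ((k + k : ℕ) : ℝ) * (#(box a) : ℝ) ^ ((((k + k : ℕ) : ℝ) - 1) /
      ((k + k : ℕ) : ℝ)) * (1 + 1 / k ^ 2)
    rw [e2]
    have key : (2 * k + 1 : ℝ) ≤ 2 * s * (1 + 1 / k ^ 2) := by
      refine abs_le_of_sq_le_sq' ?_ (by positivity) |>.2
      have e3 : (2 * s * (1 + 1 / k ^ 2)) ^ 2 = 4 * (k * (k + 1)) * (1 + 1 / k ^ 2) ^ 2 := by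
        rw [← hs2]; ring
      rw [e3]
      have e4 : (k : ℝ) * (k + 1) * (1 / k ^ 2) ≥ 1 := by
        rw [ge_iff_le, mul_one_div, le_div_iff₀ (by positivity)]; nlinarith
      have e5 : (0 : ℝ) ≤ 1 / k ^ 2 := by positivity
      have e6 : (0 : ℝ) ≤ k * (k + 1) := by positivity
      nlinarith [mul_nonneg e6 (mul_nonneg e5 e5)]
    push_cast
    have e7 : (k : ℝ) * (2 * #(box a) / k) + k * (2 * #(box a) / (k + 1)) =
        (2 * k * #(box a) / s ^ 2) * (2 * k + 1) := by
      rw [hs2]; field_simp; ring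
    have e8 : 2 * ((k : ℝ) + k) * (#(box a) / s) * (1 + 1 / k ^ 2) =
        (2 * k * #(box a) / s ^ 2) * (2 * s * (1 + 1 / k ^ 2)) := by
      field_simp; ring
    rw [e7, e8]
    exact mul_le_mul_of_nonneg_left key (by positivity)
  · intro b l _
    have h2 := two_mul_pow_le hk1
    have hhalf : #(box a) ≤ 2 * #(symmDiff (box a) (cube b l)) := by
      rcases le_or_gt l k with h | h
      · have e1 : #(box a \ cube b l) ≤ #(symmDiff (box a) (cube b l)) :=
          card_le_card (fun x hx => by rw [symmDiff_def]; exact mem_union_left _ hx)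
        have e2 := le_card_sdiff (cube b l) (box a)
        have e3 : #(cube b l) ≤ k ^ k * k ^ k := by
          rw [card_cube, ← pow_add]; exact Nat.pow_le_pow_left h _
        have e4 : 2 * (k ^ k * k ^ k) ≤ #(box a) := by
          rw [hS]; nlinarith [Nat.zero_le (k ^ k)]
        omega
      · have e1 : #(cube b l \ box a) ≤ #(symmDiff (box a) (cube b l)) :=
          card_le_card (fun x hx => by rw [symmDiff_def]; exact mem_union_right _ hx)
        have e2 := le_card_sdiff (box a) (cube b l)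
        have e3 : (k + 1) ^ k * (k + 1) ^ k ≤ #(cube b l) := by
          rw [card_cube, ← pow_add]; exact Nat.pow_le_pow_left h _
        have e4 : 2 * #(box a) ≤ (k + 1) ^ k * (k + 1) ^ k := by
          rw [hS]; nlinarith [Nat.zero_le ((k + 1) ^ k)]
        omega
    have hhalf' : (#(box a) : ℝ) ≤ 2 * #(symmDiff (box a) (cube b l)) := by exact_mod_cast hhalf
    have h3 : c * √(((k + k : ℕ) : ℝ) * (1 / k ^ 2)) < 1 / 2 := by
      have e1 : ((k + k : ℕ) : ℝ) * (1 / k ^ 2) = 2 / k := by push_cast; field_simp; ring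
      rw [e1, ← Real.sqrt_sq hc.le, ← Real.sqrt_mul (by positivity), Real.sqrt_lt' (by norm_num),
        ← mul_div_assoc, div_lt_iff₀ hk0]
      linarith
    nlinarith

end Pool.Agent.H27Z.Iso
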